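import Pool.Agent.K3h2.LT.Stm3

/-! Brick LAW3 of project LT (helper2): from sequences to trees, `d = 3` (after the file of helper60 for `d = 2`). -/

set_option autoImplicit false

open Filter Topology

namespace Pool.Agent.K3h17.LT

open Pool.Agent.K3h2.LT

theorem fib_fin {α β : Type*} (A : Set α) (hA : A.Finite) (φ : α → β) (G : Finset β) :
    ∑ b ∈ G, ({a ∈ A | φ a = b}.ncard) = {a ∈ A | φ a ∈ G}.ncard := by
  classical
  induction G using Finset.induction_on with
  | empty => simp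
  | insert b G hb ih =>
    rw [Finset.sum_insert hb, ih, ← Set.ncard_union_eq ?_ (hA.subset (Set.sep_subset _ _))
      (hA.subset (Set.sep_subset _ _))]
    · congr 1
      ext a
      simp only [Set.mem_union, Set.mem_ofPred_eq, Finset.mem_insert]
      tauto
    · rw [Set.disjoint_left]
      rintro a ⟨_, h1⟩ ⟨_, h2⟩
      exact hb (h1 ▸ h2)

theorem fib_hasSum {α β : Type*} (A : Set α) (hA : A.Finite) (φ : α → β) :
    HasSum (fun b => (({a ∈ A | φ a = b}.ncard : ℕ) : ℝ)) (A.ncard : ℝ) := by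
  classical
  have h1 : ∀ b ∉ (hA.image φ).toFinset, (({a ∈ A | φ a = b}.ncard : ℕ) : ℝ) = 0 := by
    intro b hb
    have : {a ∈ A | φ a = b} = ∅ := by
      rw [Set.eq_empty_iff_forall_notMem]
      rintro a ⟨ha, rfl⟩
      exact hb ((Set.Finite.mem_toFinset _).2 ⟨a, ha, rfl⟩)
    rw [this, Set.ncard_empty, Nat.cast_zero]
  have h2 : HasSum (fun b => (({a ∈ A | φ a = b}.ncard : ℕ) : ℝ))
      (∑ b ∈ (hA.image φ).toFinset, (({a ∈ A | φ a = b}.ncard : ℕ) : ℝ)) :=
    hasSum_sum_of_ne_finset_zero h1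
  rw [← Nat.cast_sum, fib_fin A hA φ] at h2
  have h3 : {a ∈ A | φ a ∈ (hA.image φ).toFinset} = A := by
    ext a
    constructor
    · exact fun h => h.1
    · exact fun h => ⟨h, (Set.Finite.mem_toFinset _).2 ⟨a, h, rfl⟩⟩
  rwa [h3] at h2

theorem lip_bound {n : ℕ} {S : Finset ℤ} {f : V 3 n → ℤ} (hf : f ∈ Lip 3 n S)
    (w : List (Fin 3)) :
    ∀ h : w.length ≤ n, |f ⟨w, h⟩ - f ⟨[], Nat.zero_le n⟩| ≤ w.length := by
  induction w using List.reverseRecOn with
  | nil => intro h; simp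
  | append_singleton w i ih =>
    intro h
    have h3 : (w ++ [i]).length = w.length + 1 := by simp
    have h' : w.length ≤ n := by omega
    have h1 := hf.1 w i h h'
    have h2 := ih h'
    rw [h3]
    have h4 := abs_add_le (f ⟨w ++ [i], h⟩ - f ⟨w, h'⟩) (f ⟨w, h'⟩ - f ⟨[], Nat.zero_le n⟩)
    rw [sub_add_sub_cancel] at h4
    push_cast
    linarith

open Classical in
/-- normalised count -/
noncomputable def F (c : ℕ → ℝ) (S : Finset ℤ) (r : ℕ) (g : V 3 r → ℤ) (N : ℕ) : ℝ :=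
  if h : r ≤ N then ({f ∈ Lip 3 N S | res 3 h f = g}.ncard : ℝ) / c N ^ 3 else 0

theorem tendsto_F (h1 : S_CNT1) (h2 : S_CNT2) {L : ℝ} {s : ℕ → ℤ → ℝ} {lam c : ℕ → ℝ}
    {S : Finset ℤ} {x : ℤ → ℝ} (hL : 0 < L) (hlam : ∀ n, 0 < lam n)
    (hlim : Tendsto lam atTop (𝓝 L)) (hc : ∀ n, 0 < c n)
    (hstep : ∀ n, c (n + 1) = c n ^ 3 * lam n)
    (hZ : ∀ n k, (Zc 3 S n k : ℝ) = (c n * s n k) ^ 3)
    (hx0 : ∀ k, 0 ≤ x k) (hx : ∀ k, Tendsto (fun n => s n k) atTop (𝓝 (x k))) :
    ∀ (r : ℕ) (g : V 3 r → ℤ), ∃ l : ℝ, 0 ≤ l ∧ Tendsto (F c S r g) atTop (𝓝 l) := by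
  classical
  intro r
  induction r with
  | zero =>
    intro g
    refine ⟨x (g ⟨[], le_refl 0⟩) ^ 3, pow_nonneg (hx0 _) 3, ?_⟩
    have hF : F c S 0 g = fun N => s N (g ⟨[], le_refl 0⟩) ^ 3 := by
      funext N
      rw [F, dif_pos (Nat.zero_le N)]
      have e : {f ∈ Lip 3 N S | res 3 (Nat.zero_le N) f = g} =
          {f ∈ Lip 3 N S | f ⟨[], Nat.zero_le N⟩ = g ⟨[], le_refl 0⟩} := by
        ext f
        constructor
        · rintro ⟨ha, hb⟩
          exact ⟨ha, congrFun hb ⟨[], le_refl 0⟩⟩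
        · rintro ⟨ha, hb⟩
          refine ⟨ha, ?_⟩
          funext w
          obtain ⟨w, hw⟩ := w
          have hw0 : w = [] := List.eq_nil_of_length_eq_zero (Nat.le_zero.1 hw)
          subst hw0
          exact hb
      rw [e, (h1 3 S (by norm_num) N).2, hZ]
      have := (hc N).ne'
      field_simp
    rw [hF]
    exact (hx _).pow 3
  | succ r ih =>
    intro g
    obtain ⟨l0, hl0, ht0⟩ := ih (sub g 0)
    obtain ⟨l1, hl1, ht1⟩ := ih (sub g 1)
    obtain ⟨l2, hl2, ht2⟩ := ih (sub g 2)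
    by_cases hcond : ∀ i, |sub g i ⟨[], Nat.zero_le r⟩ - g ⟨[], Nat.zero_le (r + 1)⟩| ≤ 1
    · refine ⟨l0 * l1 * l2 / L ^ 3, by positivity, ?_⟩
      rw [← tendsto_add_atTop_iff_nat 1]
      have h3 : Tendsto (fun N => F c S r (sub g 0) N * F c S r (sub g 1) N *
          F c S r (sub g 2) N / lam N ^ 3) atTop
          (𝓝 (l0 * l1 * l2 / L ^ 3)) :=
        ((ht0.mul ht1).mul ht2).div (hlim.pow 3) (pow_ne_zero 3 hL.ne')
      refine h3.congr' ?_
      filter_upwards [eventually_ge_atTop r] with N hN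
      rw [F, F, F, F, dif_pos hN, dif_pos hN, dif_pos hN, dif_pos (Nat.succ_le_succ hN),
        h2 3 S (by norm_num) r N hN g, if_pos hcond, Fin.prod_univ_three, hstep]
      have := (hc N).ne'
      have := (hlam N).ne'
      push_cast
      field_simp
    · refine ⟨0, le_refl 0, ?_⟩
      rw [← tendsto_add_atTop_iff_nat 1]
      refine tendsto_const_nhds.congr' ?_
      filter_upwards [eventually_ge_atTop r] with N hN
      rw [F, dif_pos (Nat.succ_le_succ hN), h2 3 S (by norm_num) r N hN g, if_neg hcond]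
      simp

theorem t_LAW3 : S_CNT1 → S_CNT2 → S_UNI → S3_LAW := by
  intro h1 h2 hU C L s lam c S x hS hO hc hstep hZ hFx hx r
  classical
  have hfinLip : ∀ N, (Lip 3 N S).Finite := fun N => (h1 3 S (by norm_num) N).1
  have hF := tendsto_F h1 h2 (s := s) hO.Lpos hO.pos hO.lim hc hstep hZ (fun k => (hFx.pos k).le) hx r
  choose l hl0 hl using hF
  obtain ⟨-, hUp⟩ := hU C s x (fun n k => ⟨hO.nonneg n k, hO.dom n k⟩) hx
  obtain ⟨hsum2, htot⟩ := hUp 3 (by norm_num)
  set T : ℝ := ∑' k, x k ^ 3 with hT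
  have hTpos : 0 < T := hsum2.tsum_pos (fun k => pow_nonneg (hFx.pos k).le 3) 0 (pow_pos (hFx.pos 0) 3)
  -- the total
  have htotal : ∀ N, ((Lip 3 N S).ncard : ℝ) / c N ^ 3 = ∑' k, s N k ^ 3 := by
    intro N
    have h3 := fib_hasSum (Lip 3 N S) (hfinLip N) (fun f => f ⟨[], Nat.zero_le N⟩)
    have h4 : HasSum (fun k : ℤ => s N k ^ 3) (((Lip 3 N S).ncard : ℝ) / c N ^ 3) := by
      have h5 := h3.div_const (c N ^ 3)
      have h6 : (fun k : ℤ => s N k ^ 3) = fun k : ℤ =>
          (({f ∈ Lip 3 N S | f ⟨[], Nat.zero_le N⟩ = k}.ncard : ℕ) : ℝ) / c N ^ 3 := by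
        funext k
        rw [(h1 3 S (by norm_num) N).2, hZ]
        have := (hc N).ne'
        field_simp
      rw [h6]
      exact h5
    exact h4.tsum_eq.symm
  have htotlim : Tendsto (fun N => ((Lip 3 N S).ncard : ℝ) / c N ^ 3) atTop (𝓝 T) := by
    simp only [htotal]
    exact htot
  have hshift : Tendsto (fun n : ℕ => r + n) atTop atTop :=
    tendsto_atTop_mono (fun n => Nat.le_add_left n r) tendsto_id
  -- the law
  have hlaw : ∀ g, Tendsto (fun n => law 3 (Nat.le_add_right r n) S g) atTop (𝓝 (l g / T)) := by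
    intro g
    have h3 := ((hl g).comp hshift).div (htotlim.comp hshift) hTpos.ne'
    refine h3.congr fun n => ?_
    simp only [Function.comp_apply, Pi.div_apply]
    rw [F, dif_pos (Nat.le_add_right r n), law]
    have := (hc (r + n)).ne'
    rw [div_div_div_cancel_right₀ (pow_ne_zero 3 this)]
  -- the total is eventually positive
  have hpos : ∀ᶠ n : ℕ in atTop, (0 : ℝ) < ((Lip 3 (r + n) S).ncard : ℝ) := by
    have h3 := (htotlim.comp hshift).eventually (lt_mem_nhds hTpos)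
    filter_upwards [h3] with n hn
    simp only [Function.comp_apply] at hn
    have h4 : 0 < c (r + n) ^ 3 := pow_pos (hc _) 3
    by_contra hcon
    have h5 : ((Lip 3 (r + n) S).ncard : ℝ) = 0 := le_antisymm (not_lt.1 hcon) (Nat.cast_nonneg _)
    rw [h5, zero_div] at hn
    exact lt_irrefl _ hn
  have hp0 : ∀ g, 0 ≤ l g / T := fun g => div_nonneg (hl0 g) hTpos.le
  -- finite sums
  have hle : ∀ G : Finset (V 3 r → ℤ), ∑ g ∈ G, l g / T ≤ 1 := by
    intro G
    have h3 : Tendsto (fun n => ∑ g ∈ G, law 3 (Nat.le_add_right r n) S g) atTop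
        (𝓝 (∑ g ∈ G, l g / T)) := tendsto_finset_sum _ fun g _ => hlaw g
    refine le_of_tendsto h3 ?_
    filter_upwards [hpos] with n hn
    simp only [law]
    rw [← Finset.sum_div, div_le_one hn, ← Nat.cast_sum, fib_fin _ (hfinLip (r + n))
      (fun f => res 3 (Nat.le_add_right r n) f)]
    exact_mod_cast Set.ncard_le_ncard (Set.sep_subset _ _) (hfinLip (r + n))
  have hfinV : Finite (V 3 r) := by
    have : {w : List (Fin 3) | w.length ≤ r}.Finite := List.finite_length_le (Fin 3) r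
    exact this.to_subtype
  letI := Fintype.ofFinite (V 3 r)
  have hge : ∀ K : Finset ℤ, ∃ G : Finset (V 3 r → ℤ), ∑ k ∈ K, x k ^ 3 / T ≤ ∑ g ∈ G, l g / T := by
    intro K
    set M : ℤ := ∑ k ∈ K, |k| with hM
    refine ⟨Fintype.piFinset fun _ => Finset.Icc (-(M + r)) (M + r), ?_⟩
    have h3 : Tendsto (fun n => ∑ g ∈ Fintype.piFinset (fun _ : V 3 r => Finset.Icc (-(M + r)) (M + r)),
        law 3 (Nat.le_add_right r n) S g) atTop
        (𝓝 (∑ g ∈ Fintype.piFinset (fun _ : V 3 r => Finset.Icc (-(M + r)) (M + r)), l g / T)) :=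
      tendsto_finset_sum _ fun g _ => hlaw g
    have h4 : Tendsto (fun n => ∑ k ∈ K, s (r + n) k ^ 3 / (∑' k, s (r + n) k ^ 3)) atTop
        (𝓝 (∑ k ∈ K, x k ^ 3 / T)) :=
      tendsto_finset_sum _ fun k _ => (((hx k).pow 3).comp hshift).div (htot.comp hshift) hTpos.ne'
    refine le_of_tendsto_of_tendsto h4 h3 ?_
    filter_upwards [hpos] with n hn
    have h5 : ∀ k, s (r + n) k ^ 3 / (∑' k, s (r + n) k ^ 3) =
        (({f ∈ Lip 3 (r + n) S | f ⟨[], Nat.zero_le (r + n)⟩ = k}.ncard : ℕ) : ℝ) /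
          ((Lip 3 (r + n) S).ncard : ℝ) := by
      intro k
      rw [← htotal, (h1 3 S (by norm_num) (r + n)).2, hZ]
      have := (hc (r + n)).ne'
      have := hn.ne'
      field_simp
    simp only [h5, law]
    rw [← Finset.sum_div, ← Finset.sum_div]
    refine div_le_div_of_nonneg_right ?_ hn.le
    rw [← Nat.cast_sum, ← Nat.cast_sum, fib_fin _ (hfinLip (r + n))
      (fun f => res 3 (Nat.le_add_right r n) f), fib_fin _ (hfinLip (r + n))
      (fun f => f ⟨[], Nat.zero_le (r + n)⟩)]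
    refine Nat.cast_le.2 (Set.ncard_le_ncard ?_ ((hfinLip (r + n)).subset (Set.sep_subset _ _)))
    rintro f ⟨hf, hfK⟩
    refine ⟨hf, Fintype.mem_piFinset.2 fun w => ?_⟩
    have h6 := lip_bound hf w.1 (w.2.trans (Nat.le_add_right r n))
    have h7 : |f ⟨[], Nat.zero_le (r + n)⟩| ≤ M :=
      Finset.single_le_sum (f := fun k : ℤ => |k|) (fun k _ => abs_nonneg k) hfK
    have h8 : (w.1.length : ℤ) ≤ r := by exact_mod_cast w.2
    rw [Finset.mem_Icc]
    have h9 := abs_le.1 h6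
    have h10 := abs_le.1 h7
    show -(M + r) ≤ f ⟨w.1, _⟩ ∧ f ⟨w.1, _⟩ ≤ M + r
    constructor
    · linarith [h9.1, h10.1]
    · linarith [h9.2, h10.2]
  have hsummable : Summable fun g => l g / T := summable_of_sum_le hp0 hle
  have hone : ∑' g, l g / T = 1 := by
    apply le_antisymm
    · exact hsummable.tsum_le_of_sum_le hle
    · have h3 : HasSum (fun k => x k ^ 3 / T) 1 := by
        have h4 := hsum2.hasSum.div_const T
        rwa [← hT, div_self hTpos.ne'] at h4
      refine hasSum_le_of_sum_le h3 fun K => ?_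
      obtain ⟨G, hG⟩ := hge K
      exact hG.trans (hsummable.sum_le_tsum G fun g _ => hp0 g)
  refine ⟨fun g => l g / T, hp0, ?_, hlaw⟩
  rw [← hone]
  exact hsummable.hasSum

end Pool.Agent.K3h17.LT
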